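import Mathlib

namespace Pool.Agent.Results.MP_496e47_co.Full

open Finset

/-- Standard Young tableaux on a finite set S of cells (row, column), extended by 0. -/
def SYT (S : Finset (ℕ × ℕ)) : Type :=
  {T : ℕ × ℕ → ℕ // Set.BijOn T S (Icc 1 S.card : Finset ℕ) ∧ (∀ c, c ∉ S → T c = 0) ∧
    (∀ a ∈ S, ∀ b ∈ S, a.1 = b.1 → a.2 < b.2 → T a < T b) ∧
    (∀ a ∈ S, ∀ b ∈ S, a.2 = b.2 → a.1 < b.1 → T a < T b)}

/-- The descent set. -/
def Des (S : Finset (ℕ × ℕ)) (T : SYT S) : Finset ℕ :=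
  (Icc 1 (S.card - 1)).filter fun i => ∃ a ∈ S, ∃ b ∈ S, T.1 a = i ∧ T.1 b = i + 1 ∧ a.1 < b.1

/-- Cyclic descent maps. -/
def IsCDes (S : Finset (ℕ × ℕ)) (c : SYT S → Finset ℕ) : Prop :=
  ∃ φ : SYT S ≃ SYT S, ∀ T, c T ⊆ Icc 1 S.card ∧ c T ∩ Icc 1 (S.card - 1) = Des S T ∧
    c (φ T) = (c T).image (fun i => i % S.card + 1) ∧ c T ≠ ∅ ∧ c T ≠ Icc 1 S.card

def R : Finset (ℕ × ℕ) := {(0, 0), (0, 1), (0, 2), (1, 0), (1, 1), (1, 2)}

def tab (v : Fin 5) (p : ℕ × ℕ) : ℕ :=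
  if p ∈ R then (![[1, 2, 3, 4, 5, 6], [1, 2, 4, 3, 5, 6], [1, 2, 5, 3, 4, 6], [1, 3, 4, 2, 5, 6],
    [1, 3, 5, 2, 4, 6]] v).getD (3 * p.1 + p.2) 0 else 0

def tb (v : Fin 5) : SYT R := ⟨tab v, by
  refine ⟨?_, fun c hc => if_neg hc, ?_, ?_⟩
  · have h1 : ∀ v, R.image (tab v) = Icc 1 R.card := by decide
    have h2 : ∀ v, ∀ a ∈ R, ∀ b ∈ R, tab v a = tab v b → a = b := by decide
    rw [← h1 v, coe_image]
    exact Set.InjOn.bijOn_image fun a ha b hb => h2 v a ha b hb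
  · revert v; decide
  · revert v; decide⟩

theorem des_tb : ∀ v, Des R (tb v) = ![{3}, {2, 4}, {2, 5}, {1, 4}, {1, 3, 5}] v := by decide

theorem tb_bij : Function.Bijective tb := by
  constructor
  · intro a b h
    have := congrArg (Des R) h
    rw [des_tb, des_tb] at this
    clear h
    revert this
    revert a b; decide
  · rintro ⟨T, h1, h0, h2, h3⟩
    have m : ∀ a ∈ R, 1 ≤ T a ∧ T a ≤ 6 := fun a ha => by
      have := h1.mapsTo ha
      simpa [show R.card = 6 from rfl] using this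
    have ne : ∀ a ∈ R, ∀ b ∈ R, a ≠ b → T a ≠ T b := fun a ha b hb h e => h (h1.injOn ha hb e)
    have m1 := m (0, 0) (by decide)
    have m2 := m (1, 2) (by decide)
    have r1 := h2 (0, 0) (by decide) (0, 1) (by decide) rfl (by decide)
    have r2 := h2 (0, 1) (by decide) (0, 2) (by decide) rfl (by decide)
    have r3 := h2 (1, 0) (by decide) (1, 1) (by decide) rfl (by decide)
    have r4 := h2 (1, 1) (by decide) (1, 2) (by decide) rfl (by decide)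
    have c1 := h3 (0, 0) (by decide) (1, 0) (by decide) rfl (by decide)
    have c2 := h3 (0, 1) (by decide) (1, 1) (by decide) rfl (by decide)
    have c3 := h3 (0, 2) (by decide) (1, 2) (by decide) rfl (by decide)
    have n1 := ne (0, 1) (by decide) (1, 0) (by decide) (by decide)
    have n2 := ne (0, 2) (by decide) (1, 0) (by decide) (by decide)
    have n3 := ne (0, 2) (by decide) (1, 1) (by decide) (by decide)
    have fin : ∀ v, (tab v (0, 0) = T (0, 0) ∧ tab v (0, 1) = T (0, 1) ∧ tab v (0, 2) = T (0, 2) ∧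
        tab v (1, 0) = T (1, 0) ∧ tab v (1, 1) = T (1, 1) ∧ tab v (1, 2) = T (1, 2)) →
        ∃ v, tb v = ⟨T, h1, h0, h2, h3⟩ := fun v h => ⟨v, Subtype.ext (funext fun p => by
      by_cases hp : p ∈ R
      · simp only [R, mem_insert, mem_singleton] at hp
        rcases hp with rfl | rfl | rfl | rfl | rfl | rfl
        exacts [h.1, h.2.1, h.2.2.1, h.2.2.2.1, h.2.2.2.2.1, h.2.2.2.2.2]
      · exact (if_neg hp).trans (h0 p hp).symm)⟩
    have : (1 = T (0, 0) ∧ 2 = T (0, 1) ∧ 3 = T (0, 2) ∧ 4 = T (1, 0) ∧ 5 = T (1, 1) ∧ 6 = T (1, 2)) ∨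
        (1 = T (0, 0) ∧ 2 = T (0, 1) ∧ 4 = T (0, 2) ∧ 3 = T (1, 0) ∧ 5 = T (1, 1) ∧ 6 = T (1, 2)) ∨
        (1 = T (0, 0) ∧ 2 = T (0, 1) ∧ 5 = T (0, 2) ∧ 3 = T (1, 0) ∧ 4 = T (1, 1) ∧ 6 = T (1, 2)) ∨
        (1 = T (0, 0) ∧ 3 = T (0, 1) ∧ 4 = T (0, 2) ∧ 2 = T (1, 0) ∧ 5 = T (1, 1) ∧ 6 = T (1, 2)) ∨
        (1 = T (0, 0) ∧ 3 = T (0, 1) ∧ 5 = T (0, 2) ∧ 2 = T (1, 0) ∧ 4 = T (1, 1) ∧ 6 = T (1, 2)) := by
      generalize T (0, 0) = a at *
      generalize T (0, 1) = b at *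
      generalize T (0, 2) = c at *
      generalize T (1, 0) = d at *
      generalize T (1, 1) = e at *
      generalize T (1, 2) = f at *
      obtain rfl : a = 1 := by omega
      obtain rfl : f = 6 := by omega
      have : b = 2 ∨ b = 3 := by omega
      have : c = 3 ∨ c = 4 ∨ c = 5 := by omega
      have : d = 2 ∨ d = 3 ∨ d = 4 := by omega
      have : e = 4 ∨ e = 5 := by omega
      omega
    rcases this with h | h | h | h | h
    exacts [fin 0 h, fin 1 h, fin 2 h, fin 3 h, fin 4 h]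

def c0 (D : Finset ℕ) : Finset ℕ := if D = {3} ∨ D = {2, 4} then insert 6 D else D

theorem main : (∃! c, IsCDes R c) ∧
    ¬ ∃ k : ℤ, {d : ℤ | ∃ T : SYT R, ((Des R T).card : ℤ) = d} = {k - 1, k} := by
  constructor
  · let e := Equiv.ofBijective tb tb_bij
    let s : Fin 5 ≃ Fin 5 := ⟨![3, 4, 0, 2, 1], ![2, 4, 3, 0, 1], by decide, by decide⟩
    refine ⟨fun T => c0 (Des R T), ⟨(e.symm.trans s).trans e, fun T => ?_⟩, ?_⟩
    · obtain ⟨v, rfl⟩ := e.surjective T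
      simp only [Equiv.trans_apply, Equiv.symm_apply_apply]
      simp only [e, Equiv.ofBijective_apply, des_tb]
      revert v; decide
    · rintro c ⟨φ, h⟩
      funext T
      obtain ⟨v, rfl⟩ := tb_bij.2 T
      obtain ⟨w, hw⟩ := tb_bij.2 (φ (tb v))
      have h1 := mem_powerset.2 (h (tb v)).1
      have h2 := (h (tb v)).2.1
      have h3 := (h (φ (tb v))).2.1
      rw [(h (tb v)).2.2.1, ← hw, des_tb] at h3
      rw [des_tb] at h2 ⊢
      generalize c (tb v) = C at *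
      clear hw
      revert v w
      revert C
      decide +kernel
  · rintro ⟨k, h⟩
    have h1 : (1 : ℤ) ∈ ({k - 1, k} : Set ℤ) := h ▸ ⟨tb 0, by rw [des_tb]; rfl⟩
    have h3 : (3 : ℤ) ∈ ({k - 1, k} : Set ℤ) := h ▸ ⟨tb 4, by rw [des_tb]; rfl⟩
    simp only [Set.mem_insert_iff, Set.mem_singleton_iff] at h1 h3
    omega

theorem result : ∃ la mu : YoungDiagram, mu ≤ la ∧ (∃! c, IsCDes (la.cells \ mu.cells) c) ∧
    ¬ ∃ k : ℤ, {d : ℤ | ∃ T : SYT (la.cells \ mu.cells),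
      ((Des (la.cells \ mu.cells) T).card : ℤ) = d} = {k - 1, k} := by
  have hR : IsLowerSet (R : Set (ℕ × ℕ)) := by
    rintro ⟨a, b⟩ ⟨c, d⟩ ⟨h1, h2⟩ h
    simp only [R, coe_insert, coe_singleton, Set.mem_insert_iff, Set.mem_singleton_iff,
      Prod.mk.injEq] at h h1 h2 ⊢
    omega
  refine ⟨⟨R, hR⟩, ⊥, bot_le, ?_⟩
  have e : (⟨R, hR⟩ : YoungDiagram).cells \ (⊥ : YoungDiagram).cells = R := by simp
  rw [e]
  exact main

end Pool.Agent.Results.MP_496e47_co.Full
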